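import Mathlib
import Pool.Agent.H53.Abcd

namespace Pool.Agent.Results.MP_2bef4d_nt.Infinite

/-- the abcd equation is solvable for `n` -/
def AbcdSolvable (n : ℕ) : Prop :=
  ∃ a b c d : ℕ, 0 < a ∧ 0 < b ∧ 0 < c ∧ 0 < d ∧
    (n : ℚ) = ((a : ℚ) / b + (b : ℚ) / a) * ((c : ℚ) / d + (d : ℚ) / c)

/-- the integer form is solvable for `n` -/
def IntSolvable (n : ℕ) : Prop :=
  ∃ a b : ℕ, 0 < a ∧ 0 < b ∧ (n : ℚ) = ((a : ℚ) + (a : ℚ)⁻¹) * ((b : ℚ) + (b : ℚ)⁻¹)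

theorem result : {n : ℕ | 0 < n ∧ AbcdSolvable n ∧ ¬ IntSolvable n}.Infinite := by
  apply Set.infinite_of_forall_exists_gt
  intro N
  obtain ⟨n, c, d, hn, hc, hd, h, hsq⟩ := Pool.Agent.H53.Abcd.main N
  lift n to ℕ using by omega
  lift c to ℕ using hc.le
  lift d to ℕ using hd.le
  have hc' : 0 < c := by exact_mod_cast hc
  have hd' : 0 < d := by exact_mod_cast hd
  refine ⟨n, ⟨by omega, ⟨c ^ 2 + d ^ 2, 1, c, d, by positivity, one_pos, hc', hd', ?_⟩, ?_⟩,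
    by exact_mod_cast hn⟩
  · have h' : (n : ℚ) * (c * d) = (c ^ 2 + d ^ 2) ^ 2 + 1 := by exact_mod_cast h
    push_cast
    field_simp
    linear_combination h'
  · rintro ⟨a, b, ha, hb, hab⟩
    refine hsq _ (Pool.Agent.H53.Abcd.square n a b (by exact_mod_cast ha) (by exact_mod_cast hb) ?_)
    have : (n : ℚ) * (a * b) = (a ^ 2 + 1) * (b ^ 2 + 1) := by
      rw [hab]; field_simp
    exact_mod_cast this

end Pool.Agent.Results.MP_2bef4d_nt.Infinite
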